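import Pool.Agent.H8.PU.Targets

/-!
# (CH): attached trees do not change planarity
-/

set_option autoImplicit false

namespace Pool.Agent.H69.PU

open Pool.Agent.H69.Sp Pool.Agent.H69.Mt Pool.Agent.H16.TO Pool.Agent.H8.PL Pool.Agent.H8.PU

theorem res_univ {V : Type} (G : SimpleGraph V) : res G Set.univ = G := by
  ext a b
  exact ⟨fun h => h.1, fun h => ⟨h, trivial, trivial⟩⟩

theorem ch_step (hLF : Y_LF) {V : Type} [Finite V] (G : SimpleGraph V) (X : Set V) (rk : V → ℕ)
    (h1 : ∀ u, u ∉ X → {v | G.Adj u v ∧ (v ∈ X ∨ rk v < rk u)}.ncard = 1)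
    (h2 : ∀ u, u ∉ X → ∀ w, w ∉ X → G.Adj u w → rk u ≠ rk w) (n : ℕ) :
    ∀ Y : Set V, X ⊆ Y → (∀ u ∈ Y, u ∉ X → ∀ w, w ∉ X → rk w < rk u → w ∈ Y) → Yᶜ.ncard = n →
      (IsPlanar (res G Y) ↔ IsPlanar G) := by
  classical
  induction n with
  | zero =>
    intro Y _ _ hn
    have : Yᶜ = ∅ := (Set.ncard_eq_zero (Set.toFinite _)).1 hn
    have hY : Y = Set.univ := by
      rw [← compl_compl Y, this, Set.compl_empty]
    rw [hY, res_univ]
  | succ n ih =>
    intro Y hXY hdc hn
    have hne : Yᶜ.Nonempty := by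
      rw [← Set.ncard_pos (Set.toFinite _), hn]
      exact Nat.succ_pos n
    obtain ⟨u, hu, hmin⟩ := Set.exists_min_image Yᶜ rk (Set.toFinite _) hne
    have huY : u ∉ Y := hu
    have huX : u ∉ X := fun h => huY (hXY h)
    have hlow : ∀ w, rk w < rk u → w ∈ Y := by
      intro w hw
      by_contra hwY
      exact absurd (hmin w hwY) (not_le.2 hw)
    have hset : {v | G.Adj u v ∧ v ∈ Y} = {v | G.Adj u v ∧ (v ∈ X ∨ rk v < rk u)} := by
      ext v
      constructor
      · rintro ⟨ha, hv⟩
        refine ⟨ha, ?_⟩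
        by_cases hvX : v ∈ X
        · exact Or.inl hvX
        · right
          rcases lt_trichotomy (rk v) (rk u) with h | h | h
          · exact h
          · exact absurd h.symm (h2 u huX v hvX ha)
          · exact absurd (hdc v hv hvX u huX h) huY
      · rintro ⟨ha, hv | hv⟩
        · exact ⟨ha, hXY hv⟩
        · exact ⟨ha, hlow v hv⟩
    obtain ⟨v, hv⟩ := Set.ncard_eq_one.1 (hset ▸ h1 u huX)
    have hv1 : G.Adj u v ∧ v ∈ Y := by
      have : v ∈ ({v} : Set V) := rfl
      rw [← hv] at this
      exact this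
    have hv2 : ∀ w, G.Adj u w → w ∈ Y → w = v := by
      intro w hw hwY
      have : w ∈ ({v} : Set V) := by
        rw [← hv]
        exact ⟨hw, hwY⟩
      exact this
    have huv : u ≠ v := fun h => huY (h ▸ hv1.2)
    have hstep := hLF V (res G Y) (res G (insert u Y)) u v huv (fun b hb => huY hb.2.1) ?_
    · rw [hstep]
      refine ih (insert u Y) (hXY.trans (Set.subset_insert _ _)) ?_ ?_
      · intro u' hu' hu'X w hw hlt
        rcases hu' with rfl | hu'
        · exact Set.mem_insert_of_mem _ (hlow w hlt)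
        · exact Set.mem_insert_of_mem _ (hdc u' hu' hu'X w hw hlt)
      · have h3 : Yᶜ = insert u (insert u Y)ᶜ := by
          ext w
          constructor
          · intro hw
            by_cases hwu : w = u
            · exact Or.inl hwu
            · right
              intro h
              rcases h with h | h
              · exact hwu h
              · exact hw h
          · rintro (rfl | h)
            · exact huY
            · exact fun hw => h (Or.inr hw)
        have h4 : u ∉ (insert u Y)ᶜ := fun h => h (Or.inl rfl)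
        rw [h3, Set.ncard_insert_of_notMem h4 (Set.toFinite _)] at hn
        omega
    · intro a b
      constructor
      · rintro ⟨hab, ha, hb⟩
        rcases ha with rfl | ha
        · rcases hb with rfl | hb
          · exact absurd hab (G.loopless.irrefl _)
          · exact Or.inr (Or.inl ⟨rfl, hv2 b hab hb⟩)
        · rcases hb with rfl | hb
          · exact Or.inr (Or.inr ⟨hv2 a hab.symm ha, rfl⟩)
          · exact Or.inl ⟨hab, ha, hb⟩
      · rintro (⟨hab, ha, hb⟩ | ⟨rfl, rfl⟩ | ⟨rfl, rfl⟩)
        · exact ⟨hab, Or.inr ha, Or.inr hb⟩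
        · exact ⟨hv1.1, Or.inl rfl, Or.inr hv1.2⟩
        · exact ⟨hv1.1.symm, Or.inr hv1.2, Or.inl rfl⟩

theorem pf_ch (hLF : Y_LF) : Y_CH := by
  intro V _ G X rk h1 h2
  exact ch_step hLF G X rk h1 h2 _ X subset_rfl (fun u hu hu' => absurd hu hu') rfl

end Pool.Agent.H69.PU
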