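import Pool.Agent.H63.PU.Targets

/-!
# Module END of MP_6ed97a_co
-/

namespace Pool.Agent.H69.PU

open Pool.Agent.H63.PU Pool.Agent.H53.PK

theorem chain_pred {n w : ℕ} {l : List ℕ} (h : l.IsChain (fun a b => b = nx n a)) (hw : w ∈ l) :
    l.head? = some w ∨ ∃ c, [c, w] <:+: l ∧ w = nx n c := by
  obtain ⟨s, t, rfl⟩ := List.append_of_mem hw
  rcases List.eq_nil_or_concat s with rfl | ⟨s', c, rfl⟩
  · left; simp
  · right
    refine ⟨c, ⟨s', t, by simp⟩, ?_⟩
    rw [List.concat_eq_append, List.append_assoc] at h
    have h2 := (List.isChain_append.1 h).2.1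
    simp only [List.cons_append, List.nil_append, List.isChain_cons_cons] at h2
    exact h2.1

theorem chain_succ {n w : ℕ} {l : List ℕ} (h : l.IsChain (fun a b => b = nx n a)) (hw : w ∈ l) :
    l.getLast? = some w ∨ [w, nx n w] <:+: l := by
  obtain ⟨s, t, rfl⟩ := List.append_of_mem hw
  rcases t with _ | ⟨d, t⟩
  · left; simp
  · right
    have h2 := (List.isChain_append.1 h).2.1
    rw [List.isChain_cons_cons] at h2
    rw [← h2.1]
    exact ⟨s, t, by simp⟩

theorem mem_bd {n v : ℕ} {a : List ℕ} (hp : a.Perm (List.range' 1 n)) (hv : v ∈ a) :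
    1 ≤ v ∧ v ≤ n := by
  have h := hp.mem_iff.1 hv
  rw [List.mem_range'_1] at h
  omega

theorem infix_mem_left {a b : ℕ} {l : List ℕ} (h : [a, b] <:+: l) : a ∈ l :=
  h.subset (by simp)

theorem infix_mem_right {a b : ℕ} {l : List ℕ} (h : [a, b] <:+: l) : b ∈ l :=
  h.subset (by simp)

theorem infix_mid {P Y Q u : List ℕ} (h : u <:+: Y) : u <:+: P ++ Y ++ Q :=
  h.trans ⟨P, Q, rfl⟩

theorem infix_rev {a b : ℕ} {l : List ℕ} (h : [a, b] <:+: l.reverse) : [b, a] <:+: l := by
  have h2 := List.reverse_infix.2 h
  simpa using h2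

theorem end' (hNX : T_NX) : T_END := by
  intro n a val k lo hi P Y Q y hn ha hp hy1 hy2 hE hT val' e he hlo hhi
  have hinj := hNX.2.1
  have hsub : ∀ v ∈ Y, 1 ≤ v ∧ v ≤ n := by
    intro v hv
    refine mem_bd hp ?_
    rw [ha]; simp [hv]
  have noE1 : ¬ [y, nx n y] <:+: Y := by
    intro h
    apply hE; left; rw [ha]; exact infix_mid h
  have noE2 : ¬ [nx n y, y] <:+: Y := by
    intro h
    apply hE; right; rw [ha]; exact infix_mid h
  cases k with
  | s =>
    obtain ⟨v, hv, h1, h2⟩ := hT
    constructor
    · intro hm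
      refine ⟨v, hv, ?_, ?_⟩
      · intro _
        rw [hv] at hm
        simp only [List.mem_singleton] at hm
        rw [he, hm]
      · intro h; rw [hhi h]; exact h2 h
    · intro hm
      refine ⟨v, hv, ?_, ?_⟩
      · intro h; rw [hlo h]; exact h1 h
      · intro _
        rw [hv] at hm
        simp only [List.mem_singleton] at hm
        rw [he, hm]
  | p =>
    obtain ⟨hU, h1, h2⟩ := hT
    constructor
    · intro hm
      refine ⟨hU, ?_, ?_⟩
      · intro _
        rw [he]
        rcases chain_pred hU.1 hm with h | ⟨c, hc, hc2⟩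
        · exact h
        · exfalso
          have hcb := hsub c (infix_mem_left hc)
          have := hinj n y c hy1 hy2 hcb.1 hcb.2 hc2
          subst this
          exact noE1 hc
      · intro h; rw [hhi h]; exact h2 h
    · intro hm
      refine ⟨hU, ?_, ?_⟩
      · intro h; rw [hlo h]; exact h1 h
      · intro _
        rw [he]
        rcases chain_succ hU.1 hm with h | h
        · exact h
        · exact absurd h noE1
  | m =>
    obtain ⟨hU, h1, h2⟩ := hT
    constructor
    · intro hm
      refine ⟨hU, ?_, ?_⟩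
      · intro _
        rw [he]
        rcases chain_pred hU.1 (List.mem_reverse.2 hm) with h | ⟨c, hc, hc2⟩
        · rw [List.head?_reverse] at h; exact h
        · exfalso
          have hc' := infix_rev hc
          have hcb := hsub c (infix_mem_right hc')
          have := hinj n y c hy1 hy2 hcb.1 hcb.2 hc2
          subst this
          exact noE2 hc'
      · intro h; rw [hhi h]; exact h2 h
    · intro hm
      refine ⟨hU, ?_, ?_⟩
      · intro h; rw [hlo h]; exact h1 h
      · intro _
        rw [he]
        rcases chain_succ hU.1 (List.mem_reverse.2 hm) with h | h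
        · rw [List.getLast?_reverse] at h; exact h
        · exact absurd (infix_rev h) noE2

end Pool.Agent.H69.PU
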