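import Pool.Agent.H69.PU.OUT

/-!
# Module LOCHI of MP_6ed97a_co
-/

namespace Pool.Agent.H69.PU

open Pool.Agent.H63.PU Pool.Agent.H53.PK

theorem locHi_append (e : ℕ) (is1 l A : List Item) (h : A ∈ locHi e l) :
    is1 ++ A ∈ locHi e (is1 ++ l) := by
  induction is1 with
  | nil => simpa using h
  | cons x is1 ih =>
    cases x with
    | gap =>
      simp only [List.cons_append, locHi, List.mem_cons, List.mem_map]
      right; right; right
      exact ⟨_, ih, rfl⟩
    | tok k lo hi =>
      simp only [List.cons_append, locHi]
      cases Nat.beq hi 0 with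
      | true =>
        simp only [cond_true, List.mem_cons, List.mem_map]
        right
        exact ⟨_, ih, rfl⟩
      | false =>
        simp only [cond_false, List.mem_map]
        exact ⟨_, ih, rfl⟩

theorem tok_hi_eq {n : ℕ} {val : ℕ → ℕ} {k : Kd} {lo hi e : ℕ} {l : List ℕ}
    (h1 : Tok n val k lo hi l) (h2 : Tok n val k lo e l) (hh : hi ≠ 0) (he : e ≠ 0) :
    val hi = val e := by
  cases k with
  | s =>
    obtain ⟨v, hv, _, h1⟩ := h1
    obtain ⟨w, hw, _, h2⟩ := h2
    rw [hv] at hw
    simp only [List.cons.injEq, and_true] at hw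
    rw [← h1 hh, ← h2 he, hw]
  | p =>
    have a1 := h1.2.2 hh
    have a2 := h2.2.2 he
    rw [a1] at a2
    simpa using a2
  | m =>
    have a1 := h1.2.2 hh
    have a2 := h2.2.2 he
    rw [a1] at a2
    simpa using a2

theorem lochi (hEXT : T_EXT) (hEND : T_END) : T_LOCHI := by
  intro n val e R a hn hp hR he hE hlab
  have hv := hR.val1 e
  have hmem : val e ∈ a := by
    rw [hp.mem_iff, List.mem_range'_1]; omega
  rw [← hR.flat, List.mem_flatten] at hmem
  obtain ⟨l, hl, hvl⟩ := hmem
  rw [List.mem_map] at hl
  obtain ⟨⟨it, l'⟩, hx, rfl⟩ := hl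
  simp only at hvl
  obtain ⟨R1, R2, rfl⟩ := List.append_of_mem hx
  have hflat : (R1.map Prod.snd).flatten ++ l' ++ (R2.map Prod.snd).flatten = a := by
    have := hR.flat
    simpa [List.append_assoc] using this
  cases it with
  | gap =>
    have hcl := hR.closed _ hx
    simp only at hcl
    rw [← hflat] at hcl hp
    obtain ⟨g₁, Y, g₂, k, h1, h2, h3, h4, h5, h6⟩ := hEXT n _ l' _ (val e) hn hp hcl hvl
    rw [hflat] at h4 h5 h6 hp
    have hT : Tok n val k 0 e Y := by
      refine (hEND n a val k 0 0 ((R1.map Prod.snd).flatten ++ g₁) Y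
        (g₂ ++ (R2.map Prod.snd).flatten) (val e) hn ?_ hp hv.1 hv.2 hE (h3 val) val e rfl
        (fun h => rfl) (fun h => rfl)).2 h2
      rw [← hflat, h1]; simp [List.append_assoc]
    refine ⟨R1.map Prod.fst ++ (.gap :: .tok k 0 e :: .gap :: R2.map Prod.fst), ?_, val,
      R1 ++ ((.gap, g₁) :: (.tok k 0 e, Y) :: (.gap, g₂) :: R2), ?_, ?_⟩
    · rw [List.map_append, List.map_cons]
      apply locHi_append
      cases k <;> simp [locHi]
    · simp
    · refine ⟨hR.val1, ?_, ?_, ?_⟩
      · rw [← hflat, h1]; simp [List.append_assoc]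
      · intro x hx
        simp only [List.mem_append, List.mem_cons] at hx
        rcases hx with hx | rfl | rfl | rfl | hx
        · exact hR.closed x (by simp [hx])
        · exact h4
        · exact h5
        · exact h6
        · exact hR.closed x (by simp [hx])
      · intro x hx
        simp only [List.mem_append, List.mem_cons] at hx
        rcases hx with hx | rfl | rfl | rfl | hx
        · exact hR.item x (by simp [hx])
        · trivial
        · exact hT
        · trivial
        · exact hR.item x (by simp [hx])
  | tok k lo hi =>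
    have hit := hR.item _ hx
    simp only [ItemR] at hit
    have hT : Tok n val k lo e l' := by
      refine (hEND n a val k lo hi _ l' _ (val e) hn hflat.symm hp hv.1 hv.2 hE hit val e rfl
        (fun h => rfl) (fun h => rfl)).2 hvl
    have hhi : hi = 0 := by
      by_contra h
      exact hlab k lo hi l' hx h (tok_hi_eq hit hT h he)
    subst hhi
    refine ⟨R1.map Prod.fst ++ (.tok k lo e :: R2.map Prod.fst), ?_, val,
      R1 ++ ((.tok k lo e, l') :: R2), ?_, ?_⟩
    · rw [List.map_append, List.map_cons]
      apply locHi_append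
      simp [locHi]
    · simp
    · refine ⟨hR.val1, ?_, ?_, ?_⟩
      · rw [← hflat]; simp [List.append_assoc]
      · intro x hx'
        simp only [List.mem_append, List.mem_cons] at hx'
        rcases hx' with hx' | rfl | hx'
        · exact hR.closed x (by simp [hx'])
        · exact hR.closed (.tok k lo 0, l') hx
        · exact hR.closed x (by simp [hx'])
      · intro x hx'
        simp only [List.mem_append, List.mem_cons] at hx'
        rcases hx' with hx' | rfl | hx'
        · exact hR.item x (by simp [hx'])
        · exact hT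
        · exact hR.item x (by simp [hx'])

end Pool.Agent.H69.PU
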