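import Pool.Agent.H69.PU.END

/-!
# Module OUT of MP_6ed97a_co
-/

namespace Pool.Agent.H69.PU

open Pool.Agent.H63.PU Pool.Agent.H53.PK

theorem chain_pair {n u v : ℕ} {l : List ℕ} (h : l.IsChain (fun a b => b = nx n a))
    (hi : [u, v] <:+: l) : v = nx n u := by
  obtain ⟨s, t, rfl⟩ := hi
  rw [List.append_assoc] at h
  have h2 := (List.isChain_append.1 h).2.1
  simp only [List.cons_append, List.nil_append, List.isChain_cons_cons] at h2
  exact h2.1

theorem last_pair {u v : ℕ} {l : List ℕ} (hnd : l.Nodup) (hl : l.getLast? = some u)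
    (hi : [u, v] <:+: l) : False := by
  obtain ⟨s, t, rfl⟩ := hi
  have hmem : u ∈ v :: t := by
    have h1 : (s ++ [u, v] ++ t).getLast? = (v :: t).getLast? := by
      simp only [List.append_assoc, List.cons_append, List.nil_append, List.getLast?_append,
        List.getLast?_cons_cons]
      cases h : (v :: t).getLast? with
      | none => simp at h
      | some x => simp
    rw [h1] at hl
    exact List.mem_of_mem_getLast? hl
  have h3 : (u :: v :: t).Nodup := by
    have := hnd
    rw [List.append_assoc] at this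
    exact (List.nodup_append.1 this).2.1
  exact (List.nodup_cons.1 h3).1 hmem

theorem head_pair {u v : ℕ} {l : List ℕ} (hnd : l.Nodup) (hl : l.head? = some v)
    (hi : [u, v] <:+: l) : False := by
  have h2 : [v, u] <:+: l.reverse := by
    have := List.reverse_infix.2 hi
    simpa using this
  refine last_pair (List.nodup_reverse.2 hnd) ?_ h2
  rw [List.getLast?_reverse]; exact hl

theorem top_out (hNX : T_NX) {n y : ℕ} {Z : List ℕ} (hn : 3 ≤ n)
    (hZ : Z.IsChain (fun a b => b = nx n a)) (hnd : Z.Nodup) (h1 : 1 ≤ y) (h2 : y ≤ n)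
    (hl : Z.getLast? = some y) : ¬ ([y, nx n y] <:+: Z) ∧ ¬ ([nx n y, y] <:+: Z) := by
  refine ⟨fun h => last_pair hnd hl h, fun h => ?_⟩
  exact hNX.2.2.2.2 n y hn h1 h2 (chain_pair hZ h).symm

theorem bot_out (hNX : T_NX) {n y : ℕ} {Z : List ℕ} (hn : 3 ≤ n)
    (hZ : Z.IsChain (fun a b => b = nx n a)) (hnd : Z.Nodup) (h1 : 1 ≤ y) (h2 : y ≤ n)
    (hl : Z.head? = some (nx n y)) : ¬ ([y, nx n y] <:+: Z) ∧ ¬ ([nx n y, y] <:+: Z) := by
  refine ⟨fun h => head_pair hnd hl h, fun h => ?_⟩
  exact hNX.2.2.2.2 n y hn h1 h2 (chain_pair hZ h).symm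

theorem edge_out (hP : T_PAIR) {n y : ℕ} {a P Y Q : List ℕ} (ha : a = P ++ Y ++ Q)
    (hnd : a.Nodup) (hC : Closed n a Y) (hy : y ∈ Y ∨ nx n y ∈ Y)
    (h : ¬ ([y, nx n y] <:+: Y) ∧ ¬ ([nx n y, y] <:+: Y)) : ¬ Edge n a y := by
  intro hE
  have hc := hC y hE
  have hy1 : y ∈ Y := by tauto
  have hy2 : nx n y ∈ Y := by tauto
  have key : ∀ u v : ℕ, u ∈ Y → v ∈ Y → [u, v] <:+: a → [u, v] <:+: Y := by
    intro u v hu hv hi
    rw [ha] at hi hnd
    have hd1 := (List.nodup_append.1 hnd).2.2
    have hd2 := (List.nodup_append.1 (List.nodup_append.1 hnd).1).2.2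
    rcases (hP.1 u v _ _).1 hi with h1 | h1 | ⟨_, h1⟩
    · rcases (hP.1 u v _ _).1 h1 with h2 | h2 | ⟨h2, _⟩
      · exact absurd rfl (hd2 u (infix_mem_left h2) u hu)
      · exact h2
      · exact absurd rfl (hd2 u (List.mem_of_mem_getLast? h2) u hu)
    · exact absurd rfl (hd1 v (by simp [hv]) v (infix_mem_right h1))
    · exact absurd rfl (hd1 v (by simp [hv]) v (List.mem_of_mem_head? h1))
  rcases hE with h1 | h1
  · exact h.1 (key _ _ hy1 hy2 h1)
  · exact h.2 (key _ _ hy2 hy1 h1)

theorem ne_nil_of_up {n : ℕ} {l : List ℕ} (h : Up n l) : l ≠ [] := by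
  intro h0
  have := h.2
  rw [h0] at this
  simp at this

theorem out (hNX : T_NX) (hP : T_PAIR) : T_OUT := by
  intro n a val k lo hi P Y Q hn ha hp hC hT
  have hnda : a.Nodup := hp.nodup_iff.2 (List.nodup_range' (s := 1) (n := n) (step := 1) (h := by norm_num))
  have hndY : Y.Nodup := by
    rw [ha] at hnda
    exact (List.nodup_append.1 (List.nodup_append.1 hnda).1).2.1
  have hsub : ∀ v ∈ Y, 1 ≤ v ∧ v ≤ n := by
    intro v hv
    refine mem_bd hp ?_
    rw [ha]; simp [hv]
  have ninf : ∀ u v : ℕ, [u, v] <:+: Y.reverse ↔ [v, u] <:+: Y := by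
    intro u v
    exact hP.2 u v Y
  cases k with
  | s =>
    obtain ⟨v, hv, h1, h2⟩ := hT
    have hvb := hsub v (by simp [hv])
    obtain ⟨w, hw1, hw2, hw3⟩ := hNX.2.2.1 n v hvb.1 hvb.2
    have hch : Y.IsChain (fun a b => b = nx n a) := by rw [hv]; simp
    constructor
    · refine ⟨v, hvb.1, hvb.2, by simp [hv], ?_, ?_⟩
      · exact edge_out hP ha hnda hC (Or.inl (by simp [hv]))
          (top_out hNX hn hch hndY hvb.1 hvb.2 (by simp [hv]))
      · intro val' e he hl
        refine ⟨v, hv, ?_, ?_⟩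
        · intro h; rw [hl h]; exact h1 h
        · intro _; exact he.symm
    · refine ⟨w, hw1, hw2, by simp [hv, hw3], ?_, ?_⟩
      · exact edge_out hP ha hnda hC (Or.inr (by simp [hv, hw3]))
          (bot_out hNX hn hch hndY hw1 hw2 (by simp [hv, hw3]))
      · intro val' e he hl
        refine ⟨v, hv, ?_, ?_⟩
        · intro _; rw [he, hw3]
        · intro h; rw [hl h]; exact h2 h
  | p =>
    obtain ⟨hU, h1, h2⟩ := hT
    have hne := ne_nil_of_up hU
    constructor
    · have hb := hsub (Y.getLast hne) (List.getLast_mem hne)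
      refine ⟨Y.getLast hne, hb.1, hb.2, List.getLast_mem hne, ?_, ?_⟩
      · exact edge_out hP ha hnda hC (Or.inl (List.getLast_mem hne))
          (top_out hNX hn hU.1 hndY hb.1 hb.2 (List.getLast?_eq_some_getLast hne))
      · intro val' e he hl
        refine ⟨hU, ?_, ?_⟩
        · intro h; rw [hl h]; exact h1 h
        · intro _; rw [he]; exact List.getLast?_eq_some_getLast hne
    · have hb := hsub (Y.head hne) (List.head_mem hne)
      obtain ⟨w, hw1, hw2, hw3⟩ := hNX.2.2.1 n _ hb.1 hb.2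
      have hh : Y.head? = some (nx n w) := by rw [hw3]; exact List.head?_eq_some_head hne
      refine ⟨w, hw1, hw2, by rw [hw3]; exact List.head_mem hne, ?_, ?_⟩
      · exact edge_out hP ha hnda hC (Or.inr (by rw [hw3]; exact List.head_mem hne))
          (bot_out hNX hn hU.1 hndY hw1 hw2 hh)
      · intro val' e he hl
        refine ⟨hU, ?_, ?_⟩
        · intro _; rw [he]; exact hh
        · intro h; rw [hl h]; exact h2 h
  | m =>
    obtain ⟨hU, h1, h2⟩ := hT
    have hne : Y ≠ [] := by
      intro h0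
      exact ne_nil_of_up hU (by simp [h0])
    have hndr := List.nodup_reverse.2 hndY
    constructor
    · have hb := hsub (Y.head hne) (List.head_mem hne)
      have hh : Y.head? = some (Y.head hne) := List.head?_eq_some_head hne
      have ho := top_out hNX hn hU.1 hndr hb.1 hb.2 (by rw [List.getLast?_reverse]; exact hh)
      rw [ninf, ninf] at ho
      refine ⟨Y.head hne, hb.1, hb.2, List.head_mem hne, ?_, ?_⟩
      · exact edge_out hP ha hnda hC (Or.inl (List.head_mem hne)) ⟨ho.2, ho.1⟩
      · intro val' e he hl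
        refine ⟨hU, ?_, ?_⟩
        · intro h; rw [hl h]; exact h1 h
        · intro _; rw [he]; exact hh
    · have hb := hsub (Y.getLast hne) (List.getLast_mem hne)
      obtain ⟨w, hw1, hw2, hw3⟩ := hNX.2.2.1 n _ hb.1 hb.2
      have hh : Y.getLast? = some (nx n w) := by
        rw [hw3]; exact List.getLast?_eq_some_getLast hne
      have ho := bot_out hNX hn hU.1 hndr hw1 hw2 (by rw [List.head?_reverse]; exact hh)
      rw [ninf, ninf] at ho
      refine ⟨w, hw1, hw2, by rw [hw3]; exact List.getLast_mem hne, ?_, ?_⟩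
      · exact edge_out hP ha hnda hC (Or.inr (by rw [hw3]; exact List.getLast_mem hne))
          ⟨ho.2, ho.1⟩
      · intro val' e he hl
        refine ⟨hU, ?_, ?_⟩
        · intro _; rw [he]; exact hh
        · intro h; rw [hl h]; exact h2 h

end Pool.Agent.H69.PU
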